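import Pool.Agent.L7h28.HP.Rec

/-! Project HP (helper7), part LLN: the proportions of the degrees converge in mean square. -/

set_option autoImplicit false

open Finset Filter Topology

namespace Pool.Agent.L7h28.HP

open Pool.Agent.L7h7.HP

theorem lim_zero (u : ℕ → ℝ) (c C : ℝ) (hc : 0 < c) (hC : 0 ≤ C) (hu : ∀ n, 0 ≤ u n)
    (h : ∀ n : ℕ, 1 ≤ n → u (n + 1) ≤ (1 - c / (n + 1)) * u n + C / ((n : ℝ) + 1) ^ 2) :
    Tendsto u atTop (𝓝 0) := by
  obtain ⟨S, hS⟩ : ∃ S : ℕ → ℝ, S = fun n => ∑ i ∈ range n, (1 / ((i : ℝ) + 1)) := ⟨_, rfl⟩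
  have hSt : Tendsto S atTop atTop := by rw [hS]; exact Real.tendsto_sum_range_one_div_nat_succ_atTop
  have hSs : ∀ n, S (n + 1) = S n + 1 / ((n : ℝ) + 1) := by
    intro n
    rw [hS]
    exact sum_range_succ _ _
  rw [Metric.tendsto_atTop]
  intro ε hε
  obtain ⟨m, hm⟩ := exists_nat_ge (max c (2 * C / (c * ε)))
  have hm1 : c ≤ m := le_trans (le_max_left _ _) hm
  have hm2 : 2 * C / (c * ε) ≤ m := le_trans (le_max_right _ _) hm
  obtain ⟨v, hv⟩ : ∃ v : ℕ → ℝ, v = fun n => max (u n - ε / 2) 0 := ⟨_, rfl⟩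
  have hv0 : ∀ n, 0 ≤ v n := fun n => by rw [hv]; exact le_max_right _ _
  have hv1 : ∀ n, u n - ε / 2 ≤ v n := fun n => by rw [hv]; exact le_max_left _ _
  have step : ∀ n : ℕ, m + 1 ≤ n → v (n + 1) ≤ v n * Real.exp (-(c / ((n : ℝ) + 1))) := by
    intro n hn
    have hn' : (m : ℝ) + 1 ≤ n := by exact_mod_cast hn
    have hn0 : (0 : ℝ) < (n : ℝ) + 1 := by positivity
    have hmn : (0 : ℝ) ≤ m := Nat.cast_nonneg m
    have ha1 : c / ((n : ℝ) + 1) ≤ 1 := by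
      rw [div_le_one hn0]
      linarith
    have h1 := h n (by omega)
    have h2 : C / ((n : ℝ) + 1) ^ 2 ≤ c / (n + 1) * (ε / 2) := by
      rw [div_le_iff₀ (by positivity)]
      have h3 : c / ((n : ℝ) + 1) * (ε / 2) * ((n : ℝ) + 1) ^ 2 = c * ε / 2 * (n + 1) := by
        field_simp
      rw [h3]
      rw [div_le_iff₀ (by positivity)] at hm2
      nlinarith [mul_pos hc hε]
    have h3 : u (n + 1) - ε / 2 ≤ (1 - c / ((n : ℝ) + 1)) * v n := by
      have h4 : (1 - c / ((n : ℝ) + 1)) * (u n - ε / 2) ≤ (1 - c / ((n : ℝ) + 1)) * v n :=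
        mul_le_mul_of_nonneg_left (hv1 n) (by linarith)
      nlinarith
    have h5 : v (n + 1) ≤ (1 - c / ((n : ℝ) + 1)) * v n := by
      rw [hv] at h3 ⊢
      exact max_le h3 (mul_nonneg (by linarith) (le_max_right _ _))
    have h6 : 1 - c / ((n : ℝ) + 1) ≤ Real.exp (-(c / ((n : ℝ) + 1))) := by
      have := Real.add_one_le_exp (-(c / ((n : ℝ) + 1)))
      linarith
    calc v (n + 1) ≤ (1 - c / ((n : ℝ) + 1)) * v n := h5
      _ ≤ Real.exp (-(c / ((n : ℝ) + 1))) * v n := mul_le_mul_of_nonneg_right h6 (hv0 n)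
      _ = _ := mul_comm _ _
  have bd : ∀ k : ℕ, v (m + 1 + k) ≤ v (m + 1) * Real.exp (-(c * (S (m + 1 + k) - S (m + 1)))) := by
    intro k
    induction k with
    | zero => simp
    | succ k ih =>
      have h1 := step (m + 1 + k) (by omega)
      have h2 : m + 1 + (k + 1) = m + 1 + k + 1 := by ring
      rw [h2, hSs]
      refine h1.trans ?_
      have h3 : -(c * (S (m + 1 + k) + 1 / (((m + 1 + k : ℕ) : ℝ) + 1) - S (m + 1))) =
          -(c * (S (m + 1 + k) - S (m + 1))) + -(c / (((m + 1 + k : ℕ) : ℝ) + 1)) := by ring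
      rw [h3, Real.exp_add, ← mul_assoc]
      exact mul_le_mul_of_nonneg_right ih (Real.exp_pos _).le
  have ht : Tendsto (fun k : ℕ => v (m + 1) * Real.exp (-(c * (S (m + 1 + k) - S (m + 1))))) atTop (𝓝 0) := by
    have h1 : Tendsto (fun k : ℕ => S (m + 1 + k)) atTop atTop := by
      refine hSt.comp ?_
      exact tendsto_atTop_mono (fun k => (by omega : k ≤ m + 1 + k)) tendsto_id
    have h2 : Tendsto (fun k : ℕ => c * (S (m + 1 + k) - S (m + 1))) atTop atTop := by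
      apply Tendsto.const_mul_atTop hc
      exact tendsto_atTop_add_const_right _ _ h1
    have h3 := (Real.tendsto_exp_neg_atTop_nhds_zero.comp h2).const_mul (v (m + 1))
    rw [mul_zero] at h3
    exact h3
  rw [Metric.tendsto_atTop] at ht
  obtain ⟨K, hK⟩ := ht (ε / 2) (by positivity)
  refine ⟨m + 1 + K, fun n hn => ?_⟩
  obtain ⟨k, rfl⟩ := Nat.exists_eq_add_of_le (show m + 1 ≤ n by omega)
  have h1 := hK k (by omega)
  rw [Real.dist_eq, sub_zero] at h1 ⊢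
  rw [abs_of_nonneg (hu _)]
  have h2 := bd k
  have h3 := hv1 (m + 1 + k)
  have h4 := le_abs_self (v (m + 1) * Real.exp (-(c * (S (m + 1 + k) - S (m + 1)))))
  linarith

theorem link_nonneg {K n : ℕ} (θ : Param K) (h : Hist n) (l : Fin n → Fin K) (k : Fin n) : 0 ≤ link θ h l k := by
  unfold link
  apply div_nonneg
  · split_ifs
    · exact (θ.ga_pos _ _).le
    · exact mul_nonneg (θ.ga_pos _ _).le (Nat.cast_nonneg _)
  · unfold den
    exact add_nonneg (θ.ga_pos _ _).le (sum_nonneg fun v _ => mul_nonneg (θ.ga_pos _ _).le (Nat.cast_nonneg _))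

theorem joint_nonneg {K n : ℕ} (θ : Param K) (h : Hist n) (l : Fin n → Fin K) : 0 ≤ joint θ h l := by
  unfold joint
  exact prod_nonneg fun k _ => mul_nonneg (θ.pr_nonneg _) (link_nonneg θ h l k)

theorem Ex_mono {K : ℕ} (θ : Param K) (n : ℕ) (F G : Hist n → (Fin n → Fin K) → ℝ) (h : ∀ a b, F a b ≤ G a b) :
    Ex θ n F ≤ Ex θ n G := by
  unfold Ex
  exact sum_le_sum fun a _ => sum_le_sum fun b _ => mul_le_mul_of_nonneg_left (h a b) (joint_nonneg θ a b)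

theorem Ex_add {K : ℕ} (θ : Param K) (n : ℕ) (F G : Hist n → (Fin n → Fin K) → ℝ) :
    (Ex θ n fun a b => F a b + G a b) = Ex θ n F + Ex θ n G := by
  unfold Ex
  rw [← sum_add_distrib]
  refine sum_congr rfl fun a _ => ?_
  rw [← sum_add_distrib]
  refine sum_congr rfl fun b _ => ?_
  ring

theorem Ex_mul {K : ℕ} (θ : Param K) (n : ℕ) (c : ℝ) (F : Hist n → (Fin n → Fin K) → ℝ) :
    (Ex θ n fun a b => c * F a b) = c * Ex θ n F := by
  unfold Ex
  rw [mul_sum]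
  refine sum_congr rfl fun a _ => ?_
  rw [mul_sum]
  refine sum_congr rfl fun b _ => ?_
  ring

theorem Ex_one {K : ℕ} (θ : Param K) (n : ℕ) : (Ex θ n fun _ _ => (1 : ℝ)) = 1 := by
  induction n with
  | zero =>
    unfold Ex joint
    simp
  | succ n ih =>
    rw [Ex_succ]
    have e1 : (fun (h : Hist n) (l : Fin n → Fin K) => ∑ j, ∑ v : Fin (n + 1), θ.pr j * tr θ h l j v * (1 : ℝ)) =
        fun _ _ => (1 : ℝ) := by
      funext h l
      have e2 : ∀ j, ∑ v : Fin (n + 1), θ.pr j * tr θ h l j v * (1 : ℝ) = θ.pr j := by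
        intro j
        simp only [mul_one]
        rw [← mul_sum, tr_sum, mul_one]
      rw [sum_congr rfl fun j _ => e2 j, θ.pr_sum]
    rw [e1, ih]

theorem Ex_const {K : ℕ} (θ : Param K) (n : ℕ) (c : ℝ) : (Ex θ n fun _ _ => c) = c := by
  have h1 := Ex_mul θ n c fun _ _ => (1 : ℝ)
  simp only [mul_one, Ex_one] at h1
  exact h1

theorem Ex_nonneg {K : ℕ} (θ : Param K) (n : ℕ) (F : Hist n → (Fin n → Fin K) → ℝ) (h : ∀ a b, 0 ≤ F a b) :
    0 ≤ Ex θ n F := by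
  have h1 := Ex_mono θ n (fun _ _ => (0 : ℝ)) F h
  rw [Ex_const] at h1
  exact h1

theorem NN_nonneg {n : ℕ} (h : Hist n) (l : Fin n → Fin 2) : 0 ≤ NN h l := by
  unfold NN
  refine sum_nonneg fun v _ => ?_
  split_ifs
  · exact Nat.cast_nonneg _
  · exact le_rfl

theorem NN_le {n : ℕ} (h : Hist n) (l : Fin n → Fin 2) : NN h l ≤ 2 * n := by
  have h1 : (∑ u : Fin n, (deg h n u.val : ℝ)) = 2 * n := by exact_mod_cast deg_sum h
  rw [← h1]
  unfold NN
  refine sum_le_sum fun v _ => ?_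
  split_ifs
  · exact le_rfl
  · exact Nat.cast_nonneg _

/-- the normalising sum in terms of the summed degree -/
theorem dn_NN (θ : Param 2) {n : ℕ} (h : Hist n) (l : Fin n → Fin 2) (j : Fin 2) :
    dn θ h l j = θ.ga j j + (θ.ga j 0 * NN h l + θ.ga j 1 * (2 * n - NN h l)) := by
  unfold dn
  congr 1
  have h1 : (∑ u : Fin n, (deg h n u.val : ℝ)) = 2 * n := by exact_mod_cast deg_sum h
  rw [← h1]
  unfold NN
  rw [← sum_sub_distrib, mul_sum, mul_sum, ← sum_add_distrib]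
  refine sum_congr rfl fun u _ => ?_
  rcases Fin.exists_fin_two.1 ⟨l u, rfl⟩ with h2 | h2
  · rw [h2]
    simp
  · rw [h2]
    simp

/-- the change of the summed degree -/
theorem NN_hsn {n : ℕ} (h : Hist n) (l : Fin n → Fin 2) (v : Fin (n + 1)) (j : Fin 2) :
    NN (hsn h v) (lsn l j) = NN h l + ((if lsn l j v = 0 then 1 else 0) + (if j = 0 then 1 else 0)) := by
  have h1 := sum_deg_hsn h v (fun u => if lsn l j u = 0 then (1 : ℝ) else 0)
  unfold NN
  simp only [lsn_cs, lsn_last, mul_ite, mul_one, mul_zero] at h1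
  exact h1

/-- the mean of the indicator that the target has the label `0` -/
theorem tr_mean (θ : Param 2) {n : ℕ} (h : Hist n) (l : Fin n → Fin 2) (j : Fin 2) :
    ∑ v : Fin (n + 1), tr θ h l j v * (if lsn l j v = 0 then (1 : ℝ) else 0) =
      (θ.ga j 0 * NN h l + if j = 0 then θ.ga j j else 0) / dn θ h l j := by
  rw [Fin.sum_univ_castSucc, add_div]
  congr 1
  · unfold NN
    rw [mul_sum, sum_div]
    refine sum_congr rfl fun v _ => ?_
    rw [lsn_cs]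
    unfold tr
    rw [dif_pos (by simp)]
    have h1 : (⟨(v.castSucc).val, by simp⟩ : Fin n) = v := rfl
    rw [h1]
    split_ifs with h2
    · rw [h2, mul_one]
      rfl
    · simp
  · rw [lsn_last]
    unfold tr
    rw [dif_neg (by simp)]
    split_ifs <;> simp

/-- the mean of the change of the summed degree, compared with `FF` -/
theorem drift_cmp (p q a b c m N n : ℝ) (hp : 0 ≤ p) (hp1 : p ≤ 1) (hq : 0 ≤ q) (hq1 : q ≤ 1) (hm : 0 < m)
    (ha : m ≤ a) (hb : m ≤ b) (hc : m ≤ c) (hn : 1 ≤ n) (hN : 0 ≤ N) (hN2 : N ≤ 2 * n) :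
    |(p + (p * ((a * N + a) / (a + (a * N + b * (2 * n - N)))) +
      q * ((b * N) / (c + (b * N + c * (2 * n - N)))))) - (FF p q a b c (N / (2 * n)) + 2 * (N / (2 * n)))| ≤
      (a + c) / (2 * m) / n := by
  have hn0 : 0 < n := by linarith
  obtain ⟨D, hD⟩ : ∃ D : ℝ, D = a * N + b * (2 * n - N) := ⟨_, rfl⟩
  obtain ⟨E, hE⟩ : ∃ E : ℝ, E = b * N + c * (2 * n - N) := ⟨_, rfl⟩
  have hDm : 2 * n * m ≤ D := by rw [hD]; nlinarith
  have hEm : 2 * n * m ≤ E := by rw [hE]; nlinarith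
  have hnm : 0 < 2 * n * m := by positivity
  have hD0 : 0 < D := by linarith
  have hE0 : 0 < E := by linarith
  have ha0 : 0 < a := by linarith
  have hc0 : 0 < c := by linarith
  have hb0 : 0 < b := by linarith
  have e1 : FF p q a b c (N / (2 * n)) + 2 * (N / (2 * n)) = p + (p * (a * N / D) + q * (b * N / E)) := by
    have h1 : a * (N / (2 * n)) + b * (1 - N / (2 * n)) = D / (2 * n) := by
      rw [hD]
      field_simp
    have h2 : b * (N / (2 * n)) + c * (1 - N / (2 * n)) = E / (2 * n) := by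
      rw [hE]
      field_simp
    unfold FF
    rw [h1, h2]
    field_simp
    ring
  rw [e1, ← hD, ← hE]
  have e2 : p + (p * ((a * N + a) / (a + D)) + q * (b * N / (c + E))) - (p + (p * (a * N / D) + q * (b * N / E))) =
      p * (a * (D - a * N) / (D * (a + D))) - q * (c * (b * N) / (E * (c + E))) := by
    have h1 : a + D ≠ 0 := by linarith
    have h2 : c + E ≠ 0 := by linarith
    field_simp
    ring
  rw [e2]
  have f1 : 0 ≤ a * (D - a * N) / (D * (a + D)) := by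
    have : 0 ≤ D - a * N := by rw [hD]; nlinarith
    positivity
  have f2 : a * (D - a * N) / (D * (a + D)) ≤ a / (2 * m) / n := by
    rw [div_div, div_le_div_iff₀ (by positivity) (by positivity)]
    have h1 : D - a * N ≤ D := by nlinarith
    have h2 : a * (D - a * N) ≤ a * D := mul_le_mul_of_nonneg_left h1 ha0.le
    have h3 : 2 * m * n ≤ a + D := by linarith
    calc a * (D - a * N) * (2 * m * n) ≤ a * D * (a + D) := by
          apply mul_le_mul h2 h3 (by positivity) (by positivity)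
      _ = a * (D * (a + D)) := by ring
  have f3 : 0 ≤ c * (b * N) / (E * (c + E)) := by positivity
  have f4 : c * (b * N) / (E * (c + E)) ≤ c / (2 * m) / n := by
    rw [div_div, div_le_div_iff₀ (by positivity) (by positivity)]
    have h1 : b * N ≤ E := by rw [hE]; nlinarith
    have h2 : c * (b * N) ≤ c * E := mul_le_mul_of_nonneg_left h1 hc0.le
    have h3 : 2 * m * n ≤ c + E := by linarith
    calc c * (b * N) * (2 * m * n) ≤ c * E * (c + E) := by
          apply mul_le_mul h2 h3 (by positivity) (by positivity)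
      _ = c * (E * (c + E)) := by ring
  have g1 : p * (a * (D - a * N) / (D * (a + D))) ≤ a / (2 * m) / n :=
    (mul_le_of_le_one_left f1 hp1).trans f2
  have g2 : q * (c * (b * N) / (E * (c + E))) ≤ c / (2 * m) / n :=
    (mul_le_of_le_one_left f3 hq1).trans f4
  have g3 : 0 ≤ p * (a * (D - a * N) / (D * (a + D))) := mul_nonneg hp f1
  have g4 : 0 ≤ q * (c * (b * N) / (E * (c + E))) := mul_nonneg hq f3
  have g5 : (a + c) / (2 * m) / n = a / (2 * m) / n + c / (2 * m) / n := by ring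
  have g6 : 0 ≤ a / (2 * m) / n := by positivity
  have g7 : 0 ≤ c / (2 * m) / n := by positivity
  rw [abs_le]
  constructor <;> linarith

/-- the mean of the change of the summed degree -/
theorem mean_step (θ : Param 2) {n : ℕ} (h : Hist n) (l : Fin n → Fin 2) :
    ∑ j, ∑ v : Fin (n + 1), θ.pr j * tr θ h l j v * ((if lsn l j v = 0 then (1 : ℝ) else 0) + (if j = 0 then 1 else 0)) =
      θ.pr 0 + (θ.pr 0 * ((θ.ga 0 0 * NN h l + θ.ga 0 0) /
        (θ.ga 0 0 + (θ.ga 0 0 * NN h l + θ.ga 0 1 * (2 * n - NN h l)))) +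
      θ.pr 1 * ((θ.ga 0 1 * NN h l) / (θ.ga 1 1 + (θ.ga 0 1 * NN h l + θ.ga 1 1 * (2 * n - NN h l))))) := by
  have e1 : ∀ j, ∑ v : Fin (n + 1), θ.pr j * tr θ h l j v *
      ((if lsn l j v = 0 then (1 : ℝ) else 0) + (if j = 0 then 1 else 0)) =
      θ.pr j * ((θ.ga j 0 * NN h l + if j = 0 then θ.ga j j else 0) / dn θ h l j) +
        θ.pr j * (if j = 0 then 1 else 0) := by
    intro j
    rw [← tr_mean, mul_sum]
    have h2 : θ.pr j * (if j = 0 then (1 : ℝ) else 0) = ∑ v : Fin (n + 1), θ.pr j * tr θ h l j v * (if j = 0 then 1 else 0) := by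
      rw [← sum_mul, ← mul_sum, tr_sum, mul_one]
    rw [h2, ← sum_add_distrib]
    refine sum_congr rfl fun v _ => ?_
    ring
  rw [sum_congr rfl fun j _ => e1 j, Fin.sum_univ_two, dn_NN, dn_NN, θ.ga_symm 1 0]
  simp only [if_true, Fin.isValue, one_ne_zero, if_false, mul_one, mul_zero, add_zero]
  ring

/-- one step for the mean square -/
theorem step_sq (θ : Param 2) (x m c₀ : ℝ) (hx0 : 0 ≤ x) (hx1 : x ≤ 1) (hm : 0 < m) (ha : m ≤ θ.ga 0 0)
    (hb : m ≤ θ.ga 0 1) (hc : m ≤ θ.ga 1 1)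
    (hF : ∀ y, 0 ≤ y → y ≤ 1 → (y - x) * FF (θ.pr 0) (θ.pr 1) (θ.ga 0 0) (θ.ga 0 1) (θ.ga 1 1) y ≤ - c₀ * (y - x) ^ 2)
    {n : ℕ} (hn : 1 ≤ n) (h : Hist n) (l : Fin n → Fin 2) :
    ∑ j, ∑ v : Fin (n + 1), θ.pr j * tr θ h l j v * (NN (hsn h v) (lsn l j) / (2 * ((n + 1 : ℕ) : ℝ)) - x) ^ 2 ≤
      (1 - c₀ / (n + 1)) * (NN h l / (2 * n) - x) ^ 2 +
        (2 * ((θ.ga 0 0 + θ.ga 1 1) / (2 * m)) + 1) / ((n : ℝ) + 1) ^ 2 := by
  have hn1 : (1 : ℝ) ≤ n := by exact_mod_cast hn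
  have hn0 : (0 : ℝ) < n := by linarith
  obtain ⟨X, hX⟩ : ∃ X : ℝ, X = NN h l / (2 * n) := ⟨_, rfl⟩
  have hN : NN h l = 2 * n * X := by rw [hX]; field_simp
  have hX0 : 0 ≤ X := by rw [hX]; exact div_nonneg (NN_nonneg h l) (by positivity)
  have hX1 : X ≤ 1 := by
    rw [hX, div_le_one (by positivity)]
    exact NN_le h l
  obtain ⟨Δ, hΔ⟩ : ∃ Δ : Fin 2 → Fin (n + 1) → ℝ, Δ = fun j v =>
    (if lsn l j v = 0 then (1 : ℝ) else 0) + (if j = 0 then 1 else 0) := ⟨_, rfl⟩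
  have hΔ0 : ∀ j v, 0 ≤ Δ j v := by
    intro j v
    rw [hΔ]
    simp only
    split_ifs <;> norm_num
  have hΔ2 : ∀ j v, Δ j v ≤ 2 := by
    intro j v
    rw [hΔ]
    simp only
    split_ifs <;> norm_num
  have hw : ∀ j (v : Fin (n + 1)), 0 ≤ θ.pr j * tr θ h l j v := by
    intro j v
    refine mul_nonneg (θ.pr_nonneg j) ?_
    unfold tr
    apply div_nonneg _ (dn_pos θ h l j).le
    split_ifs
    · exact mul_nonneg (θ.ga_pos _ _).le (Nat.cast_nonneg _)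
    · exact (θ.ga_pos _ _).le
  have hw1 : ∑ j, ∑ v : Fin (n + 1), θ.pr j * tr θ h l j v = 1 := by
    have e2 : ∀ j, ∑ v : Fin (n + 1), θ.pr j * tr θ h l j v = θ.pr j := by
      intro j
      rw [← mul_sum, tr_sum, mul_one]
    rw [sum_congr rfl fun j _ => e2 j, θ.pr_sum]
  have hmean : ∑ j, ∑ v : Fin (n + 1), θ.pr j * tr θ h l j v * Δ j v =
      θ.pr 0 + (θ.pr 0 * ((θ.ga 0 0 * NN h l + θ.ga 0 0) /
        (θ.ga 0 0 + (θ.ga 0 0 * NN h l + θ.ga 0 1 * (2 * n - NN h l)))) +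
      θ.pr 1 * ((θ.ga 0 1 * NN h l) / (θ.ga 1 1 + (θ.ga 0 1 * NN h l + θ.ga 1 1 * (2 * n - NN h l))))) := by
    rw [hΔ]
    exact mean_step θ h l
  have hp0 := θ.pr_nonneg 0
  have hp1 := θ.pr_nonneg 1
  have hps : θ.pr 0 + θ.pr 1 = 1 := by
    have := θ.pr_sum
    rwa [Fin.sum_univ_two] at this
  have hcmp := drift_cmp (θ.pr 0) (θ.pr 1) (θ.ga 0 0) (θ.ga 0 1) (θ.ga 1 1) m (NN h l) n hp0 (by linarith) hp1
    (by linarith) hm ha hb hc hn1 (NN_nonneg h l) (NN_le h l)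
  rw [← hmean, ← hX] at hcmp
  have hFX := hF X hX0 hX1
  obtain ⟨M, hM⟩ : ∃ M : ℝ, M = ∑ j, ∑ v : Fin (n + 1), θ.pr j * tr θ h l j v * Δ j v := ⟨_, rfl⟩
  rw [← hM] at hcmp
  obtain ⟨f, hf⟩ : ∃ f : ℝ, f = FF (θ.pr 0) (θ.pr 1) (θ.ga 0 0) (θ.ga 0 1) (θ.ga 1 1) X := ⟨_, rfl⟩
  rw [← hf] at hcmp hFX
  obtain ⟨C, hC⟩ : ∃ C : ℝ, C = (θ.ga 0 0 + θ.ga 1 1) / (2 * m) := ⟨_, rfl⟩
  rw [← hC] at hcmp ⊢
  have hC0 : 0 ≤ C := by
    rw [hC]
    have := θ.ga_pos 0 0
    have := θ.ga_pos 1 1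
    positivity
  -- pointwise
  have hpt : ∀ j (v : Fin (n + 1)), (NN (hsn h v) (lsn l j) / (2 * ((n + 1 : ℕ) : ℝ)) - x) ^ 2 ≤
      (X - x) ^ 2 + (X - x) / (n + 1) * (Δ j v - 2 * X) + 1 / ((n : ℝ) + 1) ^ 2 := by
    intro j v
    have h1 : NN (hsn h v) (lsn l j) = 2 * n * X + Δ j v := by
      rw [NN_hsn, hN, hΔ]
    have h2 : NN (hsn h v) (lsn l j) / (2 * ((n + 1 : ℕ) : ℝ)) - x = (X - x) + (Δ j v - 2 * X) / (2 * (n + 1)) := by
      rw [h1]
      push_cast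
      field_simp
      ring
    rw [h2]
    have h3 : ((X - x) + (Δ j v - 2 * X) / (2 * ((n : ℝ) + 1))) ^ 2 =
        (X - x) ^ 2 + (X - x) / (n + 1) * (Δ j v - 2 * X) + (Δ j v - 2 * X) ^ 2 / 4 / ((n : ℝ) + 1) ^ 2 := by
      field_simp
      ring
    rw [h3]
    have h4 : (Δ j v - 2 * X) ^ 2 / 4 ≤ 1 := by
      have := hΔ0 j v
      have := hΔ2 j v
      nlinarith
    have h5 : (Δ j v - 2 * X) ^ 2 / 4 / ((n : ℝ) + 1) ^ 2 ≤ 1 / ((n : ℝ) + 1) ^ 2 :=
      div_le_div_of_nonneg_right h4 (by positivity)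
    linarith
  have hsum : ∑ j, ∑ v : Fin (n + 1), θ.pr j * tr θ h l j v * (NN (hsn h v) (lsn l j) / (2 * ((n + 1 : ℕ) : ℝ)) - x) ^ 2 ≤
      (X - x) ^ 2 + (X - x) / (n + 1) * (M - 2 * X) + 1 / ((n : ℝ) + 1) ^ 2 := by
    calc _ ≤ ∑ j, ∑ v : Fin (n + 1), θ.pr j * tr θ h l j v *
          ((X - x) ^ 2 + (X - x) / (n + 1) * (Δ j v - 2 * X) + 1 / ((n : ℝ) + 1) ^ 2) :=
          sum_le_sum fun j _ => sum_le_sum fun v _ => mul_le_mul_of_nonneg_left (hpt j v) (hw j v)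
      _ = ((X - x) ^ 2 - (X - x) / (n + 1) * (2 * X) + 1 / ((n : ℝ) + 1) ^ 2) *
            (∑ j, ∑ v : Fin (n + 1), θ.pr j * tr θ h l j v) +
          (X - x) / (n + 1) * ∑ j, ∑ v : Fin (n + 1), θ.pr j * tr θ h l j v * Δ j v := by
          rw [mul_sum, mul_sum, ← sum_add_distrib]
          refine sum_congr rfl fun j _ => ?_
          rw [mul_sum, mul_sum, ← sum_add_distrib]
          refine sum_congr rfl fun v _ => ?_
          ring
      _ = _ := by
          rw [hw1, ← hM]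
          ring
  refine hsum.trans ?_
  rw [← hX]
  have hY : |X - x| ≤ 1 := by
    rw [abs_le]
    constructor <;> linarith
  have k1 : (X - x) * (M - 2 * X) ≤ - c₀ * (X - x) ^ 2 + C / n := by
    have h1 : (X - x) * (M - (f + 2 * X)) ≤ C / n := by
      calc (X - x) * (M - (f + 2 * X)) ≤ |(X - x) * (M - (f + 2 * X))| := le_abs_self _
        _ = |X - x| * |M - (f + 2 * X)| := abs_mul _ _
        _ ≤ 1 * (C / n) := mul_le_mul hY hcmp (abs_nonneg _) (by norm_num)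
        _ = _ := one_mul _
    nlinarith
  have k2 : (X - x) / (n + 1) * (M - 2 * X) ≤ - c₀ / (n + 1) * (X - x) ^ 2 + 2 * C / ((n : ℝ) + 1) ^ 2 := by
    have h1 : (X - x) / ((n : ℝ) + 1) * (M - 2 * X) = (X - x) * (M - 2 * X) / (n + 1) := by ring
    have h2 : (X - x) * (M - 2 * X) / ((n : ℝ) + 1) ≤ (- c₀ * (X - x) ^ 2 + C / n) / (n + 1) :=
      div_le_div_of_nonneg_right k1 (by positivity)
    have h3 : C / (n : ℝ) ≤ 2 * C / (n + 1) := by
      rw [div_le_div_iff₀ hn0 (by positivity)]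
      nlinarith
    have h4 : (- c₀ * (X - x) ^ 2 + C / n) / ((n : ℝ) + 1) ≤ (- c₀ * (X - x) ^ 2 + 2 * C / (n + 1)) / (n + 1) :=
      div_le_div_of_nonneg_right (by linarith) (by positivity)
    have h5 : (- c₀ * (X - x) ^ 2 + 2 * C / ((n : ℝ) + 1)) / (n + 1) =
        - c₀ / (n + 1) * (X - x) ^ 2 + 2 * C / ((n : ℝ) + 1) ^ 2 := by
      field_simp
    rw [h1]
    linarith
  have k3 : (1 - c₀ / ((n : ℝ) + 1)) * (X - x) ^ 2 + (2 * C + 1) / ((n : ℝ) + 1) ^ 2 =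
      (X - x) ^ 2 + (- c₀ / (n + 1) * (X - x) ^ 2 + 2 * C / ((n : ℝ) + 1) ^ 2) + 1 / ((n : ℝ) + 1) ^ 2 := by
    field_simp
    ring
  rw [k3]
  linarith

/-- **LLN** from the attraction statement. -/
theorem s_LLN (hFX : S_FX) : S_LLN := by
  intro θ x hpr hx0 hxs heq
  refine ⟨hx0, hxs, heq, ?_⟩
  have hxs' : x 0 + x 1 = 1 := by rwa [Fin.sum_univ_two] at hxs
  have hps : θ.pr 0 + θ.pr 1 = 1 := by
    have := θ.pr_sum
    rwa [Fin.sum_univ_two] at this
  have hx1 : x 0 ≤ 1 := by have := hx0 1; linarith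
  have hF0 : FF (θ.pr 0) (θ.pr 1) (θ.ga 0 0) (θ.ga 0 1) (θ.ga 1 1) (x 0) = 0 := by
    have h1 := heq 0
    unfold aa hh at h1
    simp only [Fin.sum_univ_two] at h1
    rw [θ.ga_symm 1 0, show x 1 = 1 - x 0 by linarith] at h1
    unfold FF
    have hA : 0 < θ.ga 0 0 * x 0 + θ.ga 0 1 * (1 - x 0) := by
      have h2 := θ.ga_pos 0 0
      have h3 := θ.ga_pos 0 1
      have h4 := hx0 0
      rcases h4.eq_or_lt with h5 | h5
      · rw [← h5]
        linarith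
      · have := mul_pos h2 h5
        have := mul_nonneg h3.le (sub_nonneg.2 hx1)
        linarith
    have hB : 0 < θ.ga 0 1 * x 0 + θ.ga 1 1 * (1 - x 0) := by
      have h2 := θ.ga_pos 0 1
      have h3 := θ.ga_pos 1 1
      have h4 := hx0 0
      rcases h4.eq_or_lt with h5 | h5
      · rw [← h5]
        linarith
      · have := mul_pos h2 h5
        have := mul_nonneg h3.le (sub_nonneg.2 hx1)
        linarith
    have h6 : θ.pr 0 * θ.ga 0 0 / (2 * (θ.ga 0 0 * x 0 + θ.ga 0 1 * (1 - x 0))) =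
        θ.pr 0 * θ.ga 0 0 / (θ.ga 0 0 * x 0 + θ.ga 0 1 * (1 - x 0)) / 2 := by
      field_simp
    have h7 : θ.pr 1 * θ.ga 0 1 / (2 * (θ.ga 0 1 * x 0 + θ.ga 1 1 * (1 - x 0))) =
        θ.pr 1 * θ.ga 0 1 / (θ.ga 0 1 * x 0 + θ.ga 1 1 * (1 - x 0)) / 2 := by
      field_simp
    rw [h6, h7] at h1
    linarith
  obtain ⟨-, -, c₀, hc₀, hF⟩ := (hFX (θ.pr 0) (θ.pr 1) (θ.ga 0 0) (θ.ga 0 1) (θ.ga 1 1) (hpr 0) (hpr 1) hps
    (θ.ga_pos 0 0) (θ.ga_pos 0 1) (θ.ga_pos 1 1)).2 (x 0) (hx0 0) hx1 hF0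
  obtain ⟨m, hm⟩ : ∃ m : ℝ, m = min (θ.ga 0 0) (min (θ.ga 0 1) (θ.ga 1 1)) := ⟨_, rfl⟩
  have hm0 : 0 < m := by
    rw [hm]
    exact lt_min (θ.ga_pos 0 0) (lt_min (θ.ga_pos 0 1) (θ.ga_pos 1 1))
  have ha : m ≤ θ.ga 0 0 := by rw [hm]; exact min_le_left _ _
  have hb : m ≤ θ.ga 0 1 := by rw [hm]; exact (min_le_right _ _).trans (min_le_left _ _)
  have hc : m ≤ θ.ga 1 1 := by rw [hm]; exact (min_le_right _ _).trans (min_le_right _ _)
  obtain ⟨C, hC⟩ : ∃ C : ℝ, C = 2 * ((θ.ga 0 0 + θ.ga 1 1) / (2 * m)) + 1 := ⟨_, rfl⟩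
  have hC0 : 0 ≤ C := by
    rw [hC]
    have := θ.ga_pos 0 0
    have := θ.ga_pos 1 1
    positivity
  refine lim_zero _ c₀ C hc₀ hC0 (fun n => Ex_nonneg θ n _ fun h l => sq_nonneg _) ?_
  intro n hn
  rw [Ex_succ]
  calc _ ≤ Ex θ n fun h l => (1 - c₀ / (n + 1)) * (NN h l / (2 * n) - x 0) ^ 2 + C / ((n : ℝ) + 1) ^ 2 := by
        apply Ex_mono
        intro h l
        have := step_sq θ (x 0) m c₀ (hx0 0) hx1 hm0 ha hb hc hF hn h l
        rw [← hC] at this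
        exact this
    _ = _ := by rw [Ex_add, Ex_mul, Ex_const]

end Pool.Agent.L7h28.HP
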