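import Pool.Agent.L7h28.HP.Lln

/-! Project HP (helper7), part LOOP: the asymptotic probability of a loop. -/

set_option autoImplicit false

open Finset Filter Topology

namespace Pool.Agent.L7h28.HP

open Pool.Agent.L7h7.HP

theorem loopP_Ex (θ : Param 2) (n : ℕ) :
    loopP θ n = Ex θ n fun h l => ∑ j, θ.pr j * (θ.ga j j / dn θ h l j) := by
  have e1 : loopP θ n = Ex θ (n + 1) fun h _ => if (h (Fin.last n)).val = n then (1 : ℝ) else 0 := by
    unfold loopP Ex
    refine sum_congr rfl fun h _ => ?_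
    unfold law
    by_cases hv : (h (Fin.last n)).val = n
    · simp only [if_pos hv, mul_one]
    · simp only [if_neg hv, mul_zero, sum_const_zero]
  rw [e1, Ex_succ]
  congr 1
  funext h l
  refine sum_congr rfl fun j _ => ?_
  have e2 : ∀ v : Fin (n + 1), θ.pr j * tr θ h l j v * (if (hsn h v (Fin.last n)).val = n then (1 : ℝ) else 0) =
      if v = Fin.last n then θ.pr j * tr θ h l j v else 0 := by
    intro v
    have h3 : (hsn h v (Fin.last n)).val = v.val := congrArg Fin.val (hsn_last h v)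
    rw [h3]
    by_cases hv : v = Fin.last n
    · rw [hv]
      simp
    · rw [if_neg hv, if_neg, mul_zero]
      intro h4
      exact hv (Fin.ext h4)
  rw [sum_congr rfl fun v _ => e2 v, sum_ite_eq' univ (Fin.last n), if_pos (mem_univ _)]
  unfold tr
  rw [dif_neg (by simp)]

/-- the mean of the distance tends to zero -/
theorem abs_lim (θ : Param 2) (x : Fin 2 → ℝ) (hG : Good θ x) :
    Tendsto (fun n : ℕ => Ex θ n fun h l => |NN h l / (2 * n) - x 0|) atTop (𝓝 0) := by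
  obtain ⟨u, hu⟩ : ∃ u : ℕ → ℝ, u = fun n : ℕ => Ex θ n fun h l => (NN h l / (2 * n) - x 0) ^ 2 := ⟨_, rfl⟩
  have hu0 : ∀ n, 0 ≤ u n := fun n => by rw [hu]; exact Ex_nonneg θ n _ fun h l => sq_nonneg _
  have hl := hG.lln
  rw [← hu] at hl
  have hs : Tendsto (fun n : ℕ => √(u n) + 1 / ((n : ℝ) + 1)) atTop (𝓝 0) := by
    have h1 : Tendsto (fun n : ℕ => √(u n)) atTop (𝓝 0) := by
      have := (Real.continuous_sqrt.tendsto 0).comp hl
      rw [Real.sqrt_zero] at this
      exact this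
    have h2 := h1.add tendsto_one_div_add_atTop_nhds_zero_nat
    rw [add_zero] at h2
    exact h2
  refine squeeze_zero (fun n => Ex_nonneg θ n _ fun h l => abs_nonneg _) (fun n => ?_) hs
  obtain ⟨t, ht⟩ : ∃ t : ℝ, t = √(u n) + 1 / ((n : ℝ) + 1) := ⟨_, rfl⟩
  have ht0 : 0 < t := by rw [ht]; positivity
  have htu : u n ≤ t ^ 2 := by
    have h1 : √(u n) ≤ t := by
      rw [ht]
      have : (0 : ℝ) ≤ 1 / ((n : ℝ) + 1) := by positivity
      linarith
    have h2 := Real.sq_sqrt (hu0 n)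
    have h3 := Real.sqrt_nonneg (u n)
    nlinarith
  rw [← ht]
  calc (Ex θ n fun h l => |NN h l / (2 * n) - x 0|) ≤ Ex θ n fun h l => 1 / (2 * t) * (NN h l / (2 * n) - x 0) ^ 2 + t / 2 := by
        apply Ex_mono
        intro h l
        generalize NN h l / (2 * n) - x 0 = y
        have h1 : 1 / (2 * t) * y ^ 2 + t / 2 - |y| = 1 / (2 * t) * (|y| - t) ^ 2 := by
          have h2 : y ^ 2 = |y| ^ 2 := (sq_abs y).symm
          rw [h2]
          field_simp
          ring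
        have h3 : 0 ≤ 1 / (2 * t) * (|y| - t) ^ 2 := by positivity
        linarith
    _ = 1 / (2 * t) * u n + t / 2 := by rw [Ex_add, Ex_mul, Ex_const, hu]
    _ ≤ 1 / (2 * t) * t ^ 2 + t / 2 := by
        have : 1 / (2 * t) * u n ≤ 1 / (2 * t) * t ^ 2 := mul_le_mul_of_nonneg_left htu (by positivity)
        linarith
    _ = t := by
        field_simp
        ring

/-- comparison of one normalising sum with its limit -/
theorem inv_cmp (G H m K X x n D : ℝ) (hm : 0 < m) (hG : m ≤ G) (hH : m ≤ H) (hX : 0 ≤ X) (hX1 : X ≤ 1)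
    (hx : 0 ≤ x) (hx1 : x ≤ 1) (hn : 0 < n) (hK : |D - 2 * n * (G * X + H * (1 - X))| ≤ K) (hD : 2 * n * m ≤ D) :
    |n / D - 1 / (2 * (G * x + H * (1 - x)))| ≤ |G - H| / (2 * m ^ 2) * |X - x| + K / (4 * m ^ 2) / n := by
  have hnm : 0 < 2 * n * m := by positivity
  have hD0 : 0 < D := by linarith
  obtain ⟨g, hg⟩ : ∃ g : ℝ, g = G * x + H * (1 - x) := ⟨_, rfl⟩
  have hgm : m ≤ g := by rw [hg]; nlinarith
  have hg0 : 0 < g := by linarith
  have hK0 : 0 ≤ K := (abs_nonneg _).trans hK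
  rw [← hg]
  have e1 : n / D - 1 / (2 * g) = -((D - 2 * n * (G * X + H * (1 - X))) + 2 * n * ((G - H) * (X - x))) / (2 * D * g) := by
    rw [hg] at hg0 ⊢
    field_simp
    ring
  rw [e1, abs_div, abs_neg, abs_of_pos (show 0 < 2 * D * g by positivity)]
  have e2 : |D - 2 * n * (G * X + H * (1 - X)) + 2 * n * ((G - H) * (X - x))| ≤ K + 2 * n * (|G - H| * |X - x|) := by
    refine (abs_add_le _ _).trans ?_
    rw [abs_mul (2 * n), abs_mul (G - H), abs_of_pos (show 0 < 2 * n by positivity)]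
    linarith
  have e3 : 0 ≤ K + 2 * n * (|G - H| * |X - x|) := by positivity
  calc _ ≤ (K + 2 * n * (|G - H| * |X - x|)) / (2 * D * g) := div_le_div_of_nonneg_right e2 (by positivity)
    _ ≤ (K + 2 * n * (|G - H| * |X - x|)) / (2 * (2 * n * m) * m) := by
        apply div_le_div_of_nonneg_left e3 (by positivity)
        apply mul_le_mul _ hgm hm.le (by positivity)
        linarith
    _ = _ := by
        field_simp
        ring

theorem s_LOOP : S_LOOP := by
  intro θ x hG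
  have hxs : x 0 + x 1 = 1 := by have := hG.sum; rwa [Fin.sum_univ_two] at this
  have hx0 := hG.nn 0
  have hx1 := hG.nn 1
  have hx1' : x 0 ≤ 1 := by linarith
  obtain ⟨m, hm⟩ : ∃ m : ℝ, m = min (θ.ga 0 0) (min (θ.ga 0 1) (θ.ga 1 1)) := ⟨_, rfl⟩
  have hm0 : 0 < m := by
    rw [hm]
    exact lt_min (θ.ga_pos 0 0) (lt_min (θ.ga_pos 0 1) (θ.ga_pos 1 1))
  have ha : m ≤ θ.ga 0 0 := by rw [hm]; exact min_le_left _ _
  have hb : m ≤ θ.ga 0 1 := by rw [hm]; exact (min_le_right _ _).trans (min_le_left _ _)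
  have hc : m ≤ θ.ga 1 1 := by rw [hm]; exact (min_le_right _ _).trans (min_le_right _ _)
  have hgm : ∀ i j, m ≤ θ.ga i j := by
    intro i j
    fin_cases i <;> fin_cases j
    · exact ha
    · exact hb
    · have := θ.ga_symm 1 0
      simp only [Fin.mk_one, Fin.isValue, Fin.zero_eta]
      rw [this]
      exact hb
    · exact hc
  obtain ⟨B, hB⟩ : ∃ B : ℝ, B = ∑ i, ∑ j, θ.ga i j := ⟨_, rfl⟩
  have hgB : ∀ i j, θ.ga i j ≤ B := by
    intro i j
    rw [hB]
    calc θ.ga i j ≤ ∑ j, θ.ga i j := single_le_sum (f := fun j => θ.ga i j) (fun j _ => (θ.ga_pos i j).le) (mem_univ j)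
      _ ≤ _ := single_le_sum (f := fun i => ∑ j, θ.ga i j) (fun i _ => sum_nonneg fun j _ => (θ.ga_pos i j).le) (mem_univ i)
  have hB0 : 0 < B := (θ.ga_pos 0 0).trans_le (hgB 0 0)
  obtain ⟨C, hC⟩ : ∃ C : ℝ, C = B * (B / (2 * m ^ 2)) := ⟨_, rfl⟩
  have hC0 : 0 ≤ C := by rw [hC]; positivity
  have key : ∀ (n : ℕ), 1 ≤ n → ∀ (h : Hist n) (l : Fin n → Fin 2),
      |(n : ℝ) * (∑ j, θ.pr j * (θ.ga j j / dn θ h l j)) - ∑ l, θ.pr l * θ.ga l l / (2 * hh θ x l)| ≤
        C * |NN h l / (2 * n) - x 0| + C / n := by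
    intro n hn h l
    have hn1 : (1 : ℝ) ≤ n := by exact_mod_cast hn
    have hn0 : (0 : ℝ) < n := by linarith
    obtain ⟨X, hX⟩ : ∃ X : ℝ, X = NN h l / (2 * n) := ⟨_, rfl⟩
    have hN : NN h l = 2 * n * X := by rw [hX]; field_simp
    have hX0 : 0 ≤ X := by rw [hX]; exact div_nonneg (NN_nonneg h l) (by positivity)
    have hX1 : X ≤ 1 := by
      rw [hX, div_le_one (by positivity)]
      exact NN_le h l
    rw [← hX]
    have e1 : (n : ℝ) * (∑ j, θ.pr j * (θ.ga j j / dn θ h l j)) - ∑ l, θ.pr l * θ.ga l l / (2 * hh θ x l) =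
        ∑ j, θ.pr j * (θ.ga j j * (n / dn θ h l j - 1 / (2 * (θ.ga j 0 * x 0 + θ.ga j 1 * (1 - x 0))))) := by
      rw [mul_sum, ← sum_sub_distrib]
      refine sum_congr rfl fun j _ => ?_
      unfold hh
      rw [Fin.sum_univ_two, show x 1 = 1 - x 0 by linarith]
      ring
    rw [e1]
    have e2 : ∀ j, |θ.ga j j * (n / dn θ h l j - 1 / (2 * (θ.ga j 0 * x 0 + θ.ga j 1 * (1 - x 0))))| ≤
        C * |X - x 0| + C / n := by
      intro j
      have h1 : |dn θ h l j - 2 * n * (θ.ga j 0 * X + θ.ga j 1 * (1 - X))| ≤ B := by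
        rw [dn_NN, hN]
        have : θ.ga j j + (θ.ga j 0 * (2 * ↑n * X) + θ.ga j 1 * (2 * ↑n - 2 * ↑n * X)) -
            2 * ↑n * (θ.ga j 0 * X + θ.ga j 1 * (1 - X)) = θ.ga j j := by ring
        rw [this, abs_of_pos (θ.ga_pos j j)]
        exact hgB j j
      have h2 : 2 * n * m ≤ dn θ h l j := by
        rw [dn_NN]
        have g1 := hgm j 0
        have g2 := hgm j 1
        have g3 := θ.ga_pos j j
        have g4 := NN_nonneg h l
        have g5 := NN_le h l
        nlinarith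
      have h3 := inv_cmp (θ.ga j 0) (θ.ga j 1) m B X (x 0) n (dn θ h l j) hm0 (hgm j 0) (hgm j 1) hX0 hX1 hx0 hx1' hn0
        h1 h2
      have h4 : |θ.ga j 0 - θ.ga j 1| ≤ B := by
        rw [abs_le]
        have g1 := θ.ga_pos j 0
        have g2 := θ.ga_pos j 1
        have g3 := hgB j 0
        have g4 := hgB j 1
        constructor <;> linarith
      rw [abs_mul, abs_of_pos (θ.ga_pos j j)]
      have h5 : |θ.ga j 0 - θ.ga j 1| / (2 * m ^ 2) * |X - x 0| + B / (4 * m ^ 2) / n ≤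
          B / (2 * m ^ 2) * |X - x 0| + B / (2 * m ^ 2) / n := by
        have g1 : |θ.ga j 0 - θ.ga j 1| / (2 * m ^ 2) ≤ B / (2 * m ^ 2) := div_le_div_of_nonneg_right h4 (by positivity)
        have g2 : B / (4 * m ^ 2) ≤ B / (2 * m ^ 2) :=
          div_le_div_of_nonneg_left hB0.le (by positivity) (by nlinarith [sq_nonneg m])
        have g3 : B / (4 * m ^ 2) / n ≤ B / (2 * m ^ 2) / n := div_le_div_of_nonneg_right g2 hn0.le
        have g4 : |θ.ga j 0 - θ.ga j 1| / (2 * m ^ 2) * |X - x 0| ≤ B / (2 * m ^ 2) * |X - x 0| :=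
          mul_le_mul_of_nonneg_right g1 (abs_nonneg _)
        linarith
      calc θ.ga j j * |n / dn θ h l j - 1 / (2 * (θ.ga j 0 * x 0 + θ.ga j 1 * (1 - x 0)))| ≤
            B * (B / (2 * m ^ 2) * |X - x 0| + B / (2 * m ^ 2) / n) :=
            mul_le_mul (hgB j j) (h3.trans h5) (abs_nonneg _) hB0.le
        _ = _ := by rw [hC]; ring
    calc _ ≤ ∑ j, |θ.pr j * (θ.ga j j * (n / dn θ h l j - 1 / (2 * (θ.ga j 0 * x 0 + θ.ga j 1 * (1 - x 0)))))| :=
          abs_sum_le_sum_abs _ _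
      _ ≤ ∑ j, θ.pr j * (C * |X - x 0| + C / n) := by
          refine sum_le_sum fun j _ => ?_
          rw [abs_mul, abs_of_nonneg (θ.pr_nonneg j)]
          exact mul_le_mul_of_nonneg_left (e2 j) (θ.pr_nonneg j)
      _ = _ := by rw [← sum_mul, θ.pr_sum, one_mul]
  -- conclusion
  rw [tendsto_iff_norm_sub_tendsto_zero]
  have hlim : Tendsto (fun n : ℕ => C * (Ex θ n fun h l => |NN h l / (2 * n) - x 0|) + C / n) atTop (𝓝 0) := by
    have h1 := (abs_lim θ x hG).const_mul C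
    have h2 : Tendsto (fun n : ℕ => C / (n : ℝ)) atTop (𝓝 0) := tendsto_const_div_atTop_nhds_zero_nat C
    have h3 := h1.add h2
    rw [mul_zero, add_zero] at h3
    exact h3
  refine squeeze_zero' (Eventually.of_forall fun n => norm_nonneg _) ?_ hlim
  filter_upwards [eventually_ge_atTop 1] with n hn
  rw [loopP_Ex, Real.norm_eq_abs]
  have e3 : ((n : ℝ) * Ex θ n fun h l => ∑ j, θ.pr j * (θ.ga j j / dn θ h l j)) - ∑ l, θ.pr l * θ.ga l l / (2 * hh θ x l) =
      Ex θ n fun h l => (n : ℝ) * (∑ j, θ.pr j * (θ.ga j j / dn θ h l j)) + (- ∑ l, θ.pr l * θ.ga l l / (2 * hh θ x l)) := by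
    rw [Ex_add, Ex_mul, Ex_const]
    ring
  rw [e3]
  have up : (Ex θ n fun h l => (n : ℝ) * (∑ j, θ.pr j * (θ.ga j j / dn θ h l j)) + (- ∑ l, θ.pr l * θ.ga l l / (2 * hh θ x l))) ≤
      C * (Ex θ n fun h l => |NN h l / (2 * n) - x 0|) + C / n := by
    calc _ ≤ Ex θ n fun h l => C * |NN h l / (2 * n) - x 0| + C / n := by
          apply Ex_mono
          intro h l
          have := (abs_le.1 (key n hn h l)).2
          linarith
      _ = _ := by rw [Ex_add, Ex_mul, Ex_const]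
  have lo : -(C * (Ex θ n fun h l => |NN h l / (2 * n) - x 0|) + C / n) ≤
      (Ex θ n fun h l => (n : ℝ) * (∑ j, θ.pr j * (θ.ga j j / dn θ h l j)) + (- ∑ l, θ.pr l * θ.ga l l / (2 * hh θ x l))) := by
    have e4 : -(C * (Ex θ n fun h l => |NN h l / (2 * n) - x 0|) + C / n) =
        Ex θ n fun h l => (-C) * |NN h l / (2 * n) - x 0| + (-(C / n)) := by
      rw [Ex_add, Ex_mul, Ex_const]
      ring
    rw [e4]
    apply Ex_mono
    intro h l
    have := (abs_le.1 (key n hn h l)).1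
    linarith
  exact abs_le.2 ⟨lo, up⟩

end Pool.Agent.L7h28.HP
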