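import Pool.Agent.L7h7.HP.Snoc

/-! Project HP (helper7), part REC: one step of the weighted sum. -/

set_option autoImplicit false

open Finset Filter Topology

namespace Pool.Agent.L7h28.HP

open Pool.Agent.L7h7.HP

theorem deg_pos {n : ℕ} (h : Hist n) (i v : ℕ) (hv : v < i) : 1 ≤ deg h i v := by
  unfold deg
  rw [if_pos hv]
  omega

/-- the weight of the reference law for one step -/
noncomputable def rw1 (ρ : ℝ) {n : ℕ} (h : Hist n) (v : ℕ) : ℝ :=
  (if v = n then 1 + ρ else (deg h n v : ℝ)) / (2 * (n : ℝ) + 1 + ρ)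

theorem refq_hsn (ρ : ℝ) {n : ℕ} (h : Hist n) (v : Fin (n + 1)) :
    refq ρ (hsn h v) = refq ρ h * rw1 ρ h v.val := by
  unfold refq rw1
  rw [Fin.prod_univ_castSucc]
  have h3 : (hsn h v (Fin.last n)).val = v.val := congrArg Fin.val (hsn_last h v)
  congr 1
  · refine prod_congr rfl fun k _ => ?_
    have h2 : (hsn h v k.castSucc).val = (h k).val := congrArg Fin.val (hsn_cs h v k)
    have h4 : (k.castSucc).val = k.val := rfl
    rw [h2, h4, deg_hsn_le h v k.val _ k.isLt.le]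
  · have h4 : (Fin.last n).val = n := rfl
    rw [h3, h4, deg_hsn_le h v n _ le_rfl]

theorem refq_pos {ρ : ℝ} (hρ : 0 < ρ) {n : ℕ} (h : Hist n) : 0 < refq ρ h := by
  unfold refq
  refine prod_pos fun k _ => ?_
  apply div_pos
  · split_ifs with hk
    · linarith
    · have h1 : 1 ≤ deg h k.val (h k).val := by
        apply deg_pos
        have := (h k).isLt
        omega
      have : (1 : ℝ) ≤ (deg h k.val (h k).val : ℝ) := by exact_mod_cast h1
      linarith
  · positivity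

theorem vec_zero (φ : Fin 2 → ℝ) {I : Type} [Fintype I] (d : I → ℝ) (f f' : I → Fin 2) :
    vec φ d f f' 0 = ∑ v, d v * φ (f v) := rfl
theorem vec_one (φ : Fin 2 → ℝ) {I : Type} [Fintype I] (d : I → ℝ) (f f' : I → Fin 2) :
    vec φ d f f' 1 = ∑ v, d v * φ (f' v) := rfl
theorem vec_two (φ : Fin 2 → ℝ) {I : Type} [Fintype I] (d : I → ℝ) (f f' : I → Fin 2) :
    vec φ d f f' 2 = ∑ v, d v * (φ (f v) * φ (f' v)) := rfl

/-- a sum over the degrees after one step -/
theorem sum_deg_hsn {n : ℕ} (h : Hist n) (v : Fin (n + 1)) (g : Fin (n + 1) → ℝ) :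
    ∑ u : Fin (n + 1), (deg (hsn h v) (n + 1) u.val : ℝ) * g u =
      ∑ u : Fin n, (deg h n u.val : ℝ) * g u.castSucc + (g v + g (Fin.last n)) := by
  have e1 : ∀ u : Fin (n + 1), (deg (hsn h v) (n + 1) u.val : ℝ) * g u =
      (deg h n u.val : ℝ) * g u + ((if u = v then g u else 0) + (if u = Fin.last n then g u else 0)) := by
    intro u
    rw [deg_hsn_succ h v u.val (by have := u.isLt; omega)]
    have h1 : u.val = v.val ↔ u = v := Fin.ext_iff.symm
    have h2 : u.val = n ↔ u = Fin.last n := by rw [Fin.ext_iff]; rfl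
    simp only [h1, h2]
    push_cast
    split_ifs <;> ring
  rw [sum_congr rfl fun u _ => e1 u, sum_add_distrib, sum_add_distrib, sum_ite_eq' univ v, if_pos (mem_univ _),
    sum_ite_eq' univ (Fin.last n), if_pos (mem_univ _), Fin.sum_univ_castSucc]
  have h3 : (deg h n (Fin.last n).val : ℝ) = 0 := by
    have h4 : (Fin.last n).val = n := rfl
    rw [h4, deg_self]
    norm_num
  rw [h3, zero_mul, add_zero]
  rfl

theorem XX_last (φ : Fin 2 → ℝ) {n : ℕ} (h : Hist n) (l l' : Fin n → Fin 2) (j j' : Fin 2) :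
    XX φ (hsn h (Fin.last n)) (lsn l j) (lsn l' j') = fun k => XX φ h l l' k + inc φ l l' j j' none k := by
  have e := fun g => sum_deg_hsn h (Fin.last n) g
  funext k
  unfold XX vec inc
  fin_cases k
  · have h1 := e (fun u => φ (lsn l j u))
    simp only [lsn_last, lsn_cs] at h1
    simp only [Fin.zero_eta, Fin.isValue, Matrix.cons_val_zero]
    rw [h1]
    ring
  · have h1 := e (fun u => φ (lsn l' j' u))
    simp only [lsn_last, lsn_cs] at h1
    simp only [Fin.mk_one, Fin.isValue, Matrix.cons_val_one, Matrix.cons_val_zero]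
    rw [h1]
    ring
  · have h1 := e (fun u => φ (lsn l j u) * φ (lsn l' j' u))
    simp only [lsn_last, lsn_cs] at h1
    simp only [Fin.reduceFinMk, Fin.isValue, Matrix.cons_val]
    rw [h1]
    ring

theorem XX_cs (φ : Fin 2 → ℝ) {n : ℕ} (h : Hist n) (l l' : Fin n → Fin 2) (j j' : Fin 2) (v : Fin n) :
    XX φ (hsn h v.castSucc) (lsn l j) (lsn l' j') = fun k => XX φ h l l' k + inc φ l l' j j' (some v) k := by
  have e := fun g => sum_deg_hsn h v.castSucc g
  funext k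
  unfold XX vec inc
  fin_cases k
  · have h1 := e (fun u => φ (lsn l j u))
    simp only [lsn_last, lsn_cs] at h1
    simp only [Fin.zero_eta, Fin.isValue, Matrix.cons_val_zero]
    rw [h1]
    ring
  · have h1 := e (fun u => φ (lsn l' j' u))
    simp only [lsn_last, lsn_cs] at h1
    simp only [Fin.mk_one, Fin.isValue, Matrix.cons_val_one, Matrix.cons_val_zero]
    rw [h1]
    ring
  · have h1 := e (fun u => φ (lsn l j u) * φ (lsn l' j' u))
    simp only [lsn_last, lsn_cs] at h1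
    simp only [Fin.reduceFinMk, Fin.isValue, Matrix.cons_val]
    rw [h1]
    ring

theorem dn_eq {θ : Param 2} {ρ κ Φ : ℝ} {φ : Fin 2 → ℝ} (hL : Lab θ.pr φ κ Φ)
    (hg : ∀ i j, θ.ga i j = 1 + ρ * φ i * φ j) {n : ℕ} (h : Hist n) (l : Fin n → Fin 2) (j : Fin 2) :
    dn θ h l j = (2 * n + 1 + ρ) + ρ * φ j * (κ + ∑ u : Fin n, (deg h n u.val : ℝ) * φ (l u)) := by
  unfold dn
  rw [hg]
  have h1 : ∑ u : Fin n, θ.ga j (l u) * (deg h n u.val : ℝ) =
      ∑ u : Fin n, (deg h n u.val : ℝ) + ρ * φ j * ∑ u : Fin n, (deg h n u.val : ℝ) * φ (l u) := by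
    rw [mul_sum, ← sum_add_distrib]
    refine sum_congr rfl fun u _ => ?_
    rw [hg]
    ring
  have h2 : ∑ u : Fin n, (deg h n u.val : ℝ) = 2 * n := by
    have := deg_sum h
    exact_mod_cast this
  rw [h1, h2]
  have h3 := hL.quad j
  have h4 : ρ * φ j * φ j = ρ * (1 + κ * φ j) := by rw [← h3]; ring
  rw [h4]
  ring

theorem aux1 (J J' q m D D' a a' u u' g r : ℝ) (hq : q ≠ 0) (hm : m ≠ 0) (hD : D ≠ 0) (hD' : D' ≠ 0) (hr : r ≠ 0) :
    J * (a * (u / D)) * (J' * (a' * (u' / D'))) / (q * (r / m)) * g =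
      J * J' / q * (a * a' * (m / D) * (m / D') * (u * u' / (r * m)) * g) := by
  field_simp

theorem aux2 (J J' q m D D' a a' u u' g r : ℝ) (hq : q ≠ 0) (hm : m ≠ 0) (hD : D ≠ 0) (hD' : D' ≠ 0) (hr : r ≠ 0) :
    J * (a * (u * r / D)) * (J' * (a' * (u' * r / D'))) / (q * (r / m)) * g =
      J * J' / q * (a * a' * (m / D) * (m / D') * (r / m * (u * u')) * g) := by
  field_simp

theorem s_REC : S_REC := by
  intro θ ρ κ Φ φ hρ hL hg n G
  unfold WW
  rw [sum_hist]
  refine sum_congr rfl fun h _ => ?_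
  obtain ⟨F, hF⟩ : ∃ F : Fin (n + 1) → (Fin (n + 1) → Fin 2) → (Fin (n + 1) → Fin 2) → ℝ, F = fun v L L' =>
    joint θ (hsn h v) L * joint θ (hsn h v) L' / refq ρ (hsn h v) * G (XX φ (hsn h v) L L') := ⟨_, rfl⟩
  have e0 : ∑ v : Fin (n + 1), ∑ L : Fin (n + 1) → Fin 2, ∑ L' : Fin (n + 1) → Fin 2,
      joint θ (hsn h v) L * joint θ (hsn h v) L' / refq ρ (hsn h v) * G (XX φ (hsn h v) L L') =
      ∑ v : Fin (n + 1), ∑ L : Fin (n + 1) → Fin 2, ∑ L' : Fin (n + 1) → Fin 2, F v L L' := by rw [hF]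
  rw [e0, sum_comm]
  have e1 : ∀ L : Fin (n + 1) → Fin 2, ∑ v : Fin (n + 1), ∑ L' : Fin (n + 1) → Fin 2, F v L L' =
      ∑ L' : Fin (n + 1) → Fin 2, ∑ v : Fin (n + 1), F v L L' := fun L => sum_comm
  rw [sum_congr rfl fun L _ => e1 L, sum_lab]
  refine sum_congr rfl fun l _ => ?_
  have e2 : ∀ j : Fin 2, ∑ L' : Fin (n + 1) → Fin 2, ∑ v : Fin (n + 1), F v (lsn l j) L' =
      ∑ l' : Fin n → Fin 2, ∑ j' : Fin 2, ∑ v : Fin (n + 1), F v (lsn l j) (lsn l' j') := fun j => sum_lab _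
  rw [sum_congr rfl fun j _ => e2 j, sum_comm]
  refine sum_congr rfl fun l' _ => ?_
  rw [mul_sum]
  refine sum_congr rfl fun j _ => ?_
  rw [mul_sum]
  refine sum_congr rfl fun j' _ => ?_
  rw [Fintype.sum_option, mul_add, Fin.sum_univ_castSucc, mul_sum, add_comm]
  have hm : (0 : ℝ) < 2 * n + 1 + ρ := by positivity
  have hd : 0 < dn θ h l j := dn_pos θ h l j
  have hd' : 0 < dn θ h l' j' := dn_pos θ h l' j'
  have hdn := dn_eq hL hg h l j
  have hdn' := dn_eq hL hg h l' j'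
  have hX0 : XX φ h l l' 0 = ∑ u : Fin n, (deg h n u.val : ℝ) * φ (l u) := rfl
  have hX1 : XX φ h l l' 1 = ∑ u : Fin n, (deg h n u.val : ℝ) * φ (l' u) := rfl
  rw [← hX0] at hdn
  rw [← hX1] at hdn'
  have hq := refq_pos hρ h
  have h1ρ : (0 : ℝ) < 1 + ρ := by linarith
  congr 1
  · -- the loop
    rw [hF]
    simp only
    rw [XX_last, joint_hsn, joint_hsn, refq_hsn]
    have ht : ∀ (l : Fin n → Fin 2) (j : Fin 2), tr θ h l j (Fin.last n) = θ.ga j j / dn θ h l j := by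
      intro l j
      unfold tr
      rw [dif_neg (by simp)]
    rw [ht, ht]
    have hr : rw1 ρ h (Fin.last n).val = (1 + ρ) / (2 * (n : ℝ) + 1 + ρ) := by
      unfold rw1
      rw [if_pos (by simp)]
    have hw : wtt θ.pr φ κ ρ (2 * n + 1 + ρ) (XX φ h l l' 0) (XX φ h l l' 1) (fun v : Fin n => (deg h n v.val : ℝ))
        l l' j j' none = θ.pr j * θ.pr j' * ((2 * n + 1 + ρ) / dn θ h l j) * ((2 * n + 1 + ρ) / dn θ h l' j') *
        ((1 + ρ * φ j ^ 2) * (1 + ρ * φ j' ^ 2) / ((1 + ρ) * (2 * n + 1 + ρ))) := by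
      rw [hdn, hdn']
      rfl
    have h5 : 1 + ρ * φ j * φ j = 1 + ρ * φ j ^ 2 := by ring
    have h5' : 1 + ρ * φ j' * φ j' = 1 + ρ * φ j' ^ 2 := by ring
    rw [hr, hw, hg j j, hg j' j', h5, h5']
    exact aux1 _ _ _ _ _ _ _ _ _ _ _ _ hq.ne' hm.ne' hd.ne' hd'.ne' h1ρ.ne'
  · refine sum_congr rfl fun v _ => ?_
    rw [hF]
    simp only
    rw [XX_cs, joint_hsn, joint_hsn, refq_hsn]
    have hdv : (0 : ℝ) < (deg h n v.val : ℝ) := by
      exact_mod_cast deg_pos h n v.val v.isLt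
    have ht : ∀ (l : Fin n → Fin 2) (j : Fin 2), tr θ h l j v.castSucc =
        θ.ga j (l v) * (deg h n v.val : ℝ) / dn θ h l j := by
      intro l j
      unfold tr
      rw [dif_pos (by simp)]
      rfl
    rw [ht, ht]
    have hr : rw1 ρ h (v.castSucc).val = (deg h n v.val : ℝ) / (2 * (n : ℝ) + 1 + ρ) := by
      unfold rw1
      rw [if_neg (by have := v.isLt; simp only [Fin.val_castSucc]; omega)]
      rfl
    have hw : wtt θ.pr φ κ ρ (2 * n + 1 + ρ) (XX φ h l l' 0) (XX φ h l l' 1) (fun v : Fin n => (deg h n v.val : ℝ))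
        l l' j j' (some v) = θ.pr j * θ.pr j' * ((2 * n + 1 + ρ) / dn θ h l j) * ((2 * n + 1 + ρ) / dn θ h l' j') *
        ((deg h n v.val : ℝ) / (2 * n + 1 + ρ) * ((1 + ρ * φ j * φ (l v)) * (1 + ρ * φ j' * φ (l' v)))) := by
      rw [hdn, hdn']
      rfl
    rw [hr, hw, hg j (l v), hg j' (l' v)]
    exact aux2 _ _ _ _ _ _ _ _ _ _ _ _ hq.ne' hm.ne' hd.ne' hd'.ne' hdv.ne'

end Pool.Agent.L7h28.HP
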